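import Pool.Agent.helper37.MW.Spec

/-!
# WIN (project MW, second prover)
-/

set_option autoImplicit false

namespace Pool.Agent.helper37.MW

open Finset Pool.Agent.NK

theorem WIN_card (n : ℕ) (x : Fin n → ℝ) (hx : ∀ i, x i ≠ 0) :
    Fintype.card {i // 0 < x i} + Fintype.card {i // x i < 0} = n := by
  rw [Fintype.card_subtype, Fintype.card_subtype, ← Finset.card_union_of_disjoint]
  · have h : (univ.filter (fun i => 0 < x i)) ∪ univ.filter (fun i => x i < 0) = univ := by
      ext i
      simp only [Finset.mem_union, Finset.mem_filter, Finset.mem_univ, true_and, iff_true]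
      rcases lt_trichotomy (x i) 0 with h | h | h
      · exact Or.inr h
      · exact absurd h (hx i)
      · exact Or.inl h
    rw [h, Finset.card_univ, Fintype.card_fin]
  · rw [Finset.disjoint_filter]
    intro i _ h1 h2
    exact lt_asymm h1 h2

theorem WIN (h1 : CHW_stmt) (h2 : SGL_stmt) (h3 : CST_stmt) (h4 : Pool.Agent.helper37.MA.PEP_stmt) :
    WIN_stmt := by
  intro p n k hp hn hk1 hk2 x hx hcard
  have hc := WIN_card n x hx
  obtain ⟨q, hq⟩ : ∃ q, Fintype.card {i // x i < 0} = q := ⟨_, rfl⟩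
  rw [hcard, hq] at hc
  subst hc
  refine h4 (p + q) k _ x hx ?_
  intro C hC hch
  rw [hcard, hq]
  obtain ⟨c1, c2, c3, c4, c5, c6, c7, c8, c9⟩ := h3 p q k hp hn hk1 hk2
  rcases Nat.lt_or_ge (#{c ∈ C | c.1 ≤ p}) 2 with h | h
  · exact h2 p q k C c2 c4 hk1 hC (by omega)
  · have h5 := h1 p q k C hp c1 c3 c5 c6 c7 hC hch h
    have h6 := h5.trans c9
    have h7 := le_of_mul_le_mul_left h6 c8
    exact_mod_cast h7

end Pool.Agent.helper37.MW
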